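import Pool.Agent.X17.MQ.Merge
import Pool.Agent.Y967.CM.D

/-! # The data at integers with random digits -/

set_option autoImplicit false

namespace Pool.Agent.X17.MQ

open Finset Filter Topology
open Pool.Agent.X17.MD
open Pool.Agent.Y967.CM

/-- the data hold outside an event of small probability -/
theorem dat_prob {b : ℕ} (hbo : b % 2 = 1) (hb3 : 3 ≤ b) {c : ℝ} (hc : 0 < c) (hc1 : c ≤ 1) {ε : ℝ}
    (hε : 0 < ε) : ∃ L0 : ℕ, ∀ L ≥ L0, ∀ (Δ : ℕ) (ν : Fin L → Fin b → ℝ), Δ % 2 = 1 → Law b Δ c ν →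
      prob ν (fun m => ¬ Dat 1 (fun _ => m) (NL L)) ≤ ε := by
  obtain ⟨L1, hL1⟩ := merge hbo hb3 hc hc1 (κ := 1 / 8) (ε := ε / 2) (by norm_num) (by positivity)
  have hlog : Tendsto (fun L : ℕ => Real.log (L : ℝ)) atTop atTop :=
    Real.tendsto_log_atTop.comp tendsto_natCast_atTop_atTop
  have hpow : ∀ᶠ L : ℕ in atTop, (1 - c) ^ (L - L / 2) ≤ ε / 2 := by
    have h1 : Tendsto (fun L : ℕ => (1 - c) ^ (L - L / 2)) atTop (𝓝 0) := by
      apply (tendsto_pow_atTop_nhds_zero_of_lt_one (by linarith) (by linarith)).comp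
      apply tendsto_atTop_mono (f := fun L : ℕ => L / 2) (fun L => by omega)
      exact Nat.tendsto_div_const_atTop (by norm_num)
    exact h1.eventually (ge_mem_nhds (by positivity))
  obtain ⟨L2, hL2⟩ := eventually_atTop.1 ((NL_tendsto.eventually (size_aux one_pos)).and (hpow.and
    ((choose_t (κ := 1 / 8) (by norm_num) 0).and ((hlog.eventually_ge_atTop 2).and
      (NL_tendsto.eventually_ge_atTop 1)))))
  refine ⟨max L1 L2, fun L hL Δ ν hΔ hlaw => ?_⟩
  obtain ⟨T, hT, hmerge⟩ := hL1 L ((le_max_left _ _).trans hL)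
  obtain ⟨h1, h2, ⟨-, -, h3⟩, h4, h5⟩ := hL2 L ((le_max_right _ _).trans hL)
  have hlN0 : 0 ≤ Real.log (NL L) := Real.log_natCast_nonneg _
  have hsub : ∀ m : ℕ, ¬ Dat 1 (fun _ => m) (NL L) →
      (¬ ∀ (i : ℕ) (r : ℤ), (i : ℝ) ≤ Pool.Agent.Y967.CM.kap (NL L) →
        |(r : ℝ)| ≤ Real.exp (Pool.Agent.Y967.CM.kap (NL L)) →
          (Pool.Agent.H499R2.CO.Tz 1)^[T] (3 ^ i * (m : ℤ) + r) = (Pool.Agent.H499R2.CO.Tz 1)^[T] (m : ℤ)) ∨
        m < b ^ (L / 2) := by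
    intro m hm
    by_contra hcon
    rw [not_or, not_not, not_lt] at hcon
    apply hm
    refine ⟨T, ?_, fun i hi => ?_, hcon.1⟩
    · have : (1 / 8 : ℝ) * Real.log (NL L) ≤ 1 * Real.log (NL L) :=
        mul_le_mul_of_nonneg_right (by norm_num) hlN0
      linarith
    · have h6 := h1 (NL L) T i (by
        rw [Real.sqrt_le_left (Nat.cast_nonneg _)]
        have : (1 : ℝ) ≤ NL L := by exact_mod_cast h5
        nlinarith) le_rfl hT hi
      refine h6.trans ?_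
      have h7 : ⌊(1 : ℝ) / 2 * Real.log (NL L)⌋₊ ≤ L / 2 := by
        rw [Nat.le_div_iff_mul_le (by norm_num)]
        have h8 : (⌊(1 : ℝ) / 2 * Real.log (NL L)⌋₊ : ℝ) ≤ 1 / 2 * Real.log (NL L) :=
          Nat.floor_le (by positivity)
        have h9 : (L : ℝ) / Real.log L ≤ L := div_le_self (Nat.cast_nonneg _) (by linarith)
        have h10 : (((⌊(1 : ℝ) / 2 * Real.log (NL L)⌋₊ * 2 : ℕ)) : ℝ) ≤ L := by
          push_cast
          linarith
        exact_mod_cast h10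
      have h8 : 2 ^ ⌊(1 : ℝ) / 2 * Real.log (NL L)⌋₊ ≤ m := by
        calc 2 ^ ⌊(1 : ℝ) / 2 * Real.log (NL L)⌋₊ ≤ 2 ^ (L / 2) := Nat.pow_le_pow_right (by norm_num) h7
          _ ≤ b ^ (L / 2) := Nat.pow_le_pow_left (by omega) _
          _ ≤ m := hcon.2
      exact_mod_cast h8
  refine (prob_mono hlaw.nonneg hsub).trans ((prob_or hlaw.nonneg _ _).trans ?_)
  have h6 := hmerge Δ ν hΔ hlaw
  have h7 := (small (by omega : 0 < Δ) hc1 hlaw (Nat.div_le_self L 2)).trans h2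
  linarith

end Pool.Agent.X17.MQ
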