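import Pool.Agent.X17.MQ.Par
import Pool.Agent.Y967.CM.U

/-! # Merging of the trajectories near integers with random digits -/

set_option autoImplicit false

namespace Pool.Agent.X17.MQ

open Finset ZMod Filter Topology
open Pool.Agent.X17.MD
open Pool.Agent.Y967.CM
open Pool.Agent.H499R2.CO Pool.Agent.W38.CR Pool.Agent.W38.AF

/-- the range of the merging -/
noncomputable def Wd (L : ℕ) : ℝ := √ (L : ℝ) / Real.log L ^ 18

/-- the auxiliary index -/
noncomputable def NL (L : ℕ) : ℕ := ⌊Real.exp ((L : ℝ) / Real.log L)⌋₊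

lemma div_log_tendsto : Tendsto (fun L : ℕ => (L : ℝ) / Real.log L) atTop atTop := by
  have h1 : Tendsto (fun x : ℝ => x / Real.log x) atTop atTop := by
    have h2 : Tendsto (fun x : ℝ => Real.log x / x) atTop (𝓝[>] 0) := by
      rw [tendsto_nhdsWithin_iff]
      constructor
      · have := Real.isLittleO_log_id_atTop
        exact this.tendsto_div_nhds_zero
      · filter_upwards [eventually_gt_atTop 1] with x hx
        exact div_pos (Real.log_pos hx) (by linarith)
    have h3 := h2.inv_tendsto_nhdsGT_zero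
    refine h3.congr (fun x => ?_)
    simp
  exact h1.comp tendsto_natCast_atTop_atTop

lemma NL_tendsto : Tendsto NL atTop atTop :=
  tendsto_nat_floor_atTop.comp (Real.tendsto_exp_atTop.comp div_log_tendsto)

lemma cb_congr {t : ℕ} {x y : ℤ} (h : (2 : ℤ) ^ t ∣ y - x) : cb t y = cb t x := by
  obtain ⟨k, hk⟩ := h
  have : y = x + k * 2 ^ t := by linarith
  rw [this, cb_periodic]

/-- the probability of a bad class -/
theorem bad_class {b L : ℕ} (ν : Fin L → Fin b → ℝ) (t : ℕ) {F : List Bool → ℝ} (hF : ∀ l, 0 ≤ F l)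
    (hF1 : ∀ l, F l ≠ 0 → 1 ≤ F l) :
    prob ν (fun n => F (cb t (n : ℤ)) ≠ 0) ≤ av t F + dist ν t := by
  classical
  set Z : Finset (ZMod (2 ^ t)) := univ.filter (fun z => F (cb t (z.val : ℤ)) ≠ 0) with hZ
  have h1 := prob_class_le ν t (fun n => F (cb t (n : ℤ)) ≠ 0) Z (by
    intro n
    rw [hZ, mem_filter]
    have e : cb t (((n : ZMod (2 ^ t)).val : ℕ) : ℤ) = cb t (n : ℤ) := by
      apply cb_congr
      rw [ZMod.val_natCast]
      have h2 := Nat.div_add_mod n (2 ^ t)
      refine ⟨-(n / 2 ^ t : ℕ), ?_⟩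
      have h3 : ((2 ^ t * (n / 2 ^ t) + n % 2 ^ t : ℕ) : ℤ) = n := by exact_mod_cast h2
      push_cast at h3 ⊢
      linarith
    rw [e]
    simp)
  have h2 : (Z.card : ℝ) ≤ 2 ^ t * av t F := by
    have h3 : Z.card = #{c ∈ range (2 ^ t) | F (cb t ((c : ℕ) : ℤ)) ≠ 0} := by
      apply Finset.card_nbij' (fun z : ZMod (2 ^ t) => z.val) (fun n => (n : ZMod (2 ^ t)))
      · intro z hz
        rw [hZ] at hz
        simp only [Finset.coe_filter, Finset.mem_univ, true_and, Set.mem_ofPred_eq] at hz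
        simp only [Finset.coe_filter, Finset.mem_range, Set.mem_ofPred_eq]
        exact ⟨ZMod.val_lt z, hz⟩
      · intro n hn
        simp only [Finset.coe_filter, Finset.mem_range, Set.mem_ofPred_eq] at hn
        rw [hZ]
        simp only [Finset.coe_filter, Finset.mem_univ, true_and, Set.mem_ofPred_eq]
        rw [ZMod.val_cast_of_lt hn.1]
        exact hn.2
      · intro z _; exact ZMod.natCast_zmod_val z
      · intro n hn
        simp only [Finset.coe_filter, Finset.mem_range, Set.mem_ofPred_eq] at hn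
        exact ZMod.val_cast_of_lt hn.1
    rw [h3]
    refine le_trans (le_of_eq ?_) (cls_count hF hF1 t)
    congr!
  have h4 : (Z.card : ℝ) / ((2 ^ t : ℕ) : ℝ) ≤ av t F := by
    push_cast
    rw [div_le_iff₀ (by positivity)]
    linarith
  have h5 := (abs_le.1 h1).2
  linarith

/-- the choice of the number of steps -/
theorem choose_t {κ : ℝ} (hκ : 0 < κ) (m0 : ℕ) : ∀ᶠ L : ℕ in atTop, (∃ m ≥ m0,
    ((2 * (4 ^ m * m ^ 30) : ℕ) : ℝ) ≤ κ * Real.log (NL L) ∧
    Pool.Agent.Y967.CM.kap (NL L) ≤ 2 ^ (m - 3) * Real.log 2) ∧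
    Wd L ≤ Pool.Agent.Y967.CM.kap (NL L) ∧ Real.log (NL L) ≤ L / Real.log L := by
  have hlog : Tendsto (fun L : ℕ => Real.log (L : ℝ)) atTop atTop :=
    Real.tendsto_log_atTop.comp tendsto_natCast_atTop_atTop
  filter_upwards [NL_tendsto.eventually (choose_RG hκ m0), hlog.eventually_ge_atTop 2,
    div_log_tendsto.eventually_ge_atTop 2,
    NL_tendsto.eventually_ge_atTop 3, hlog.eventually_ge_atTop 4] with L h1 h2 h3 h4 h5
  obtain ⟨m, hm, hm1, hm2⟩ := h1
  obtain ⟨N, hN⟩ : ∃ N : ℕ, NL L = N := ⟨_, rfl⟩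
  rw [hN] at hm1 hm2 h4 ⊢
  unfold NL at hN
  have hN3 : (3 : ℝ) ≤ N := by exact_mod_cast h4
  have hN0 : (0 : ℝ) < N := by linarith
  have hup : Real.log N ≤ L / Real.log L := by
    have h6 : (N : ℝ) ≤ Real.exp ((L : ℝ) / Real.log L) := by
      rw [← hN]; exact Nat.floor_le (Real.exp_pos _).le
    have h7 := Real.log_le_log hN0 h6
    rwa [Real.log_exp] at h7
  have hlow : L / Real.log L / 2 ≤ Real.log N := by
    have h6 : Real.exp ((L : ℝ) / Real.log L) < N + 1 := by
      rw [← hN]; exact Nat.lt_floor_add_one _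
    have h7 : Real.exp ((L : ℝ) / Real.log L) ≤ 2 * N := by linarith
    have h8 := Real.log_le_log (Real.exp_pos _) h7
    rw [Real.log_exp, Real.log_mul (by norm_num) hN0.ne'] at h8
    have h9 := Real.log_two_lt_d9
    linarith
  have hlL : 0 < Real.log L := by linarith
  have hL0 : (0 : ℝ) < L := by
    by_contra hcon
    have : (L : ℝ) = 0 := le_antisymm (not_lt.1 hcon) (Nat.cast_nonneg L)
    rw [this, Real.log_zero] at h2
    linarith
  have h6 := hm2 N (by
    rw [Real.sqrt_le_left hN0.le]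
    nlinarith) le_rfl
  refine ⟨⟨m, hm, hm1, h6⟩, ?_, hup⟩
  unfold Pool.Agent.Y967.CM.kap Wd
  have hlogN1 : 1 ≤ Real.log N := by
    have : Real.exp 1 ≤ 3 := by have := Real.exp_one_lt_d9; linarith
    rw [Real.le_log_iff_exp_le hN0]
    linarith
  have hllN : Real.log (Real.log N) ≤ Real.log L := by
    apply Real.log_le_log (by linarith)
    refine hup.trans ?_
    rw [div_le_iff₀ hlL]
    nlinarith
  have hll0 : 0 ≤ Real.log (Real.log N) := Real.log_nonneg hlogN1
  rcases eq_or_lt_of_le hll0 with h0 | h0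
  · -- degenerate case: `log log N = 0` is impossible for large `N`
    exfalso
    have h7 : Real.log N = 1 := by
      have h8 : Real.log (Real.log N) = 0 := h0.symm
      rcases Real.log_eq_zero.1 h8 with h9 | h9 | h9 <;> linarith
    have h8 : (Real.exp 1 : ℝ) = N := by rw [← h7, Real.exp_log hN0]
    have h9 := Real.exp_one_lt_d9
    linarith
  · have h7 : √ (L : ℝ) / Real.log L ^ 18 ≤ √ (Real.log N) / Real.log L ^ 17 := by
      rw [div_le_div_iff₀ (by positivity) (by positivity)]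
      have h8 : √ (L : ℝ) ≤ √ (Real.log N) * Real.log L := by
        have h9 : (L : ℝ) ≤ Real.log N * Real.log L ^ 2 := by
          have h10 : (L : ℝ) / Real.log L / 2 * (Real.log L) ^ 2 ≤ Real.log N * Real.log L ^ 2 :=
            mul_le_mul_of_nonneg_right hlow (by positivity)
          have h11 : (L : ℝ) / Real.log L / 2 * (Real.log L) ^ 2 = L * (Real.log L / 2) := by
            field_simp
          rw [h11] at h10
          nlinarith
        calc √ (L : ℝ) ≤ √ (Real.log N * Real.log L ^ 2) := Real.sqrt_le_sqrt h9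
          _ = √ (Real.log N) * Real.log L := by
              rw [Real.sqrt_mul (by linarith), Real.sqrt_sq hlL.le]
      calc √ (L : ℝ) * Real.log L ^ 17 ≤ (√ (Real.log N) * Real.log L) * Real.log L ^ 17 :=
            mul_le_mul_of_nonneg_right h8 (by positivity)
        _ = √ (Real.log N) * Real.log L ^ 18 := by ring
    refine h7.trans ?_
    apply div_le_div_of_nonneg_left (Real.sqrt_nonneg _) (by positivity)
    exact pow_le_pow_left₀ hll0 hllN 17

/-- **merging**: a number of steps `T ≤ κ L / log L` after which all affine neighbours have merged, outside an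
event of small probability -/
theorem merge {b : ℕ} (hbo : b % 2 = 1) (hb3 : 3 ≤ b) {c : ℝ} (hc : 0 < c) (hc1 : c ≤ 1) {κ ε : ℝ}
    (hκ : 0 < κ) (hε : 0 < ε) : ∃ L0 : ℕ, ∀ L ≥ L0, ∃ T : ℕ, (T : ℝ) ≤ κ * Real.log (NL L) ∧
      ∀ (Δ : ℕ) (ν : Fin L → Fin b → ℝ), Δ % 2 = 1 → Law b Δ c ν →
        prob ν (fun n => ¬ ∀ (i : ℕ) (r : ℤ), (i : ℝ) ≤ Pool.Agent.Y967.CM.kap (NL L) → |(r : ℝ)| ≤ Real.exp (Pool.Agent.Y967.CM.kap (NL L)) →
          (Tz 1)^[T] (3 ^ i * (n : ℤ) + r) = (Tz 1)^[T] (n : ℤ)) ≤ ε := by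
  obtain ⟨δ, C, hδ, hC, hd⟩ := dist_bd hbo hb3 hc hc1
  obtain ⟨m0, hm0⟩ := phaseG (show 0 < ε / 2 by positivity)
  set κ1 : ℝ := min κ δ with hκ1
  have hκ10 : 0 < κ1 := lt_min hκ hδ
  have hlog : Tendsto (fun L : ℕ => Real.log (L : ℝ)) atTop atTop :=
    Real.tendsto_log_atTop.comp tendsto_natCast_atTop_atTop
  have hsmall : ∀ᶠ L : ℕ in atTop, C * Real.exp (-(δ * (Real.log L / κ1))) ≤ ε / 2 := by
    have h1 : Tendsto (fun L : ℕ => C * Real.exp (-(δ * (Real.log L / κ1)))) atTop (𝓝 (C * 0)) := by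
      apply Tendsto.const_mul
      apply Real.tendsto_exp_neg_atTop_nhds_zero.comp
      apply Tendsto.const_mul_atTop hδ
      exact hlog.atTop_div_const hκ10
    rw [mul_zero] at h1
    exact h1.eventually (ge_mem_nhds (by positivity))
  obtain ⟨L0, hL0⟩ := eventually_atTop.1 ((choose_t hκ10 (max m0 1)).and (hsmall.and
    (hlog.eventually_ge_atTop 1)))
  refine ⟨L0, fun L hL => ?_⟩
  obtain ⟨⟨⟨m, hm, hm1, hm2⟩, hWd, hup⟩, h2, h3⟩ := hL0 L hL
  obtain ⟨T, hT, hav⟩ := hm0 m ((le_max_left _ _).trans hm)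
  have hlL : 0 < Real.log L := by linarith
  have hx0 : 0 ≤ (L : ℝ) / Real.log L := by positivity
  have hT0 : (T : ℝ) ≤ κ1 * Real.log (NL L) := by
    have : (T : ℝ) ≤ ((2 * (4 ^ m * m ^ 30) : ℕ) : ℝ) := by exact_mod_cast hT
    linarith
  have hT1 : (T : ℝ) ≤ κ1 * (L / Real.log L) := hT0.trans (mul_le_mul_of_nonneg_left hup hκ10.le)
  have hlN0 : 0 ≤ Real.log (NL L) := Real.log_natCast_nonneg _
  refine ⟨T, hT0.trans (mul_le_mul_of_nonneg_right (min_le_left _ _) hlN0), fun Δ ν hΔ hlaw => ?_⟩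
  have hsub : ∀ n : ℕ, (¬ ∀ (i : ℕ) (r : ℤ), (i : ℝ) ≤ Pool.Agent.Y967.CM.kap (NL L) → |(r : ℝ)| ≤ Real.exp (Pool.Agent.Y967.CM.kap (NL L)) →
          (Tz 1)^[T] (3 ^ i * (n : ℤ) + r) = (Tz 1)^[T] (n : ℤ)) → FB (2 ^ (m - 3)) (cb T (n : ℤ)) ≠ 0 := by
    intro n hn h0
    apply hn
    intro i r hi hr
    have h4 : (i, r) ∈ Qg (2 ^ (m - 3)) := by
      apply kap_int _ hi hr
      push_cast
      exact hm2
    have h5 := FB_spec h0 h4
    exact h5
  refine (prob_mono hlaw.nonneg hsub).trans ?_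
  refine (bad_class ν T (FB_nonneg _) (fun l => FB_one)).trans ?_
  have hav' : av T (FB (2 ^ (m - 3))) ≤ ε / 2 := hav
  -- `T ≥ 1`
  rcases Nat.eq_zero_or_pos T with hT0 | hT0
  · -- then the law is trivially uniform
    subst hT0
    have hd0 : dist ν 0 = 0 := by
      unfold dist
      apply Finset.sum_eq_zero
      intro z _
      have hz : ∀ z' : ZMod (2 ^ 0), z' = z := by
        intro z'
        have : Subsingleton (ZMod (2 ^ 0)) := by
          rw [pow_zero]; infer_instance
        exact Subsingleton.elim _ _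
      have h5 := law_sum hlaw.one (N := 2 ^ 0)
      rw [Finset.sum_eq_single z (fun z' _ h => absurd (hz z') h) (fun h => absurd (mem_univ z) h)] at h5
      rw [h5]; norm_num
    rw [hd0]; linarith
  · have h5 := hd L T Δ ν hT0 (by
      have h6 : κ1 * (L / Real.log L) ≤ δ * (L / Real.log L) :=
        mul_le_mul_of_nonneg_right (min_le_right _ _) hx0
      calc (T : ℝ) * Real.log L ≤ (δ * (L / Real.log L)) * Real.log L :=
            mul_le_mul_of_nonneg_right (hT1.trans h6) hlL.le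
        _ = δ * L := by field_simp) hΔ hlaw
    have hTR : (0 : ℝ) < T := by exact_mod_cast hT0
    have h6 : C * Real.exp (-(δ * (L / T))) ≤ C * Real.exp (-(δ * (Real.log L / κ1))) := by
      apply mul_le_mul_of_nonneg_left _ hC.le
      apply Real.exp_le_exp.2
      have h7 : Real.log L / κ1 ≤ L / T := by
        rw [div_le_div_iff₀ hκ10 hTR]
        calc Real.log L * T ≤ Real.log L * (κ1 * (L / Real.log L)) := mul_le_mul_of_nonneg_left hT1 hlL.le
          _ = L * κ1 := by field_simp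
      have := mul_le_mul_of_nonneg_left h7 hδ.le
      linarith
    linarith

end Pool.Agent.X17.MQ
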