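import Pool.Agent.X17.MQ.Tv
import Pool.Agent.X17.MZ.C

/-! # Equidistribution modulo `2 ^ t` and the parities of the terms of the trajectories -/

set_option autoImplicit false

namespace Pool.Agent.X17.MQ

open Finset ZMod
open Pool.Agent.X17.MD
open Pool.Agent.X17.MZ (T pv dvd_of_pv)

/-- the distance of the law of the class modulo `2 ^ t` from the uniform law -/
noncomputable def dist {b L : ℕ} (ν : Fin L → Fin b → ℝ) (t : ℕ) : ℝ :=
  ∑ z : ZMod (2 ^ t), |law (wt ν) (fun d => ((num b d : ℕ) : ZMod (2 ^ t))) z - 1 / ((2 ^ t : ℕ) : ℝ)|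

lemma law_nonneg {b L : ℕ} {ν : Fin L → Fin b → ℝ} (h : ∀ j x, 0 ≤ ν j x) {N : ℕ} (z : ZMod N) :
    0 ≤ law (wt ν) (fun d => ((num b d : ℕ) : ZMod N)) z := by
  unfold law
  apply Finset.sum_nonneg
  intro d _
  split_ifs
  · exact wt_nonneg h d
  · exact le_rfl

lemma law_sum {b L : ℕ} {ν : Fin L → Fin b → ℝ} (h : ∀ j, ∑ x, ν j x = 1) {N : ℕ} [NeZero N] :
    ∑ z : ZMod N, law (wt ν) (fun d => ((num b d : ℕ) : ZMod N)) z = 1 := by
  unfold law
  rw [Finset.sum_comm]
  simp only [Finset.sum_ite_eq, Finset.mem_univ, if_true]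
  exact total h

lemma dist_le_two {b L : ℕ} {ν : Fin L → Fin b → ℝ} (h : ∀ j x, 0 ≤ ν j x) (h1 : ∀ j, ∑ x, ν j x = 1) (t : ℕ) :
    dist ν t ≤ 2 := by
  unfold dist
  calc ∑ z : ZMod (2 ^ t), |law (wt ν) (fun d => ((num b d : ℕ) : ZMod (2 ^ t))) z - 1 / ((2 ^ t : ℕ) : ℝ)|
      ≤ ∑ z : ZMod (2 ^ t), (law (wt ν) (fun d => ((num b d : ℕ) : ZMod (2 ^ t))) z + 1 / ((2 ^ t : ℕ) : ℝ)) := by
        apply Finset.sum_le_sum
        intro z _
        have h2 := law_nonneg h (N := 2 ^ t) z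
        have h3 : (0 : ℝ) ≤ 1 / ((2 ^ t : ℕ) : ℝ) := by positivity
        rw [abs_le]
        constructor <;> linarith
    _ = 2 := by
        rw [Finset.sum_add_distrib, law_sum h1, Finset.sum_const, card_univ, ZMod.card, nsmul_eq_mul]
        have : ((2 ^ t : ℕ) : ℝ) ≠ 0 := by positivity
        field_simp
        norm_num

/-- **equidistribution**, explicit form -/
theorem dist_bd {b : ℕ} (hbo : b % 2 = 1) (hb3 : 3 ≤ b) {c : ℝ} (hc : 0 < c) (hc1 : c ≤ 1) :
    ∃ δ C : ℝ, 0 < δ ∧ 0 < C ∧ ∀ (L t Δ : ℕ) (ν : Fin L → Fin b → ℝ), 1 ≤ t → (t : ℝ) * Real.log L ≤ δ * L →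
      Δ % 2 = 1 → Law b Δ c ν → dist ν t ≤ C * Real.exp (-(δ * (L / t))) := by
  have hbR : (3 : ℝ) ≤ b := by exact_mod_cast hb3
  have hb0 : (0 : ℝ) < b := by linarith
  have hb4 : 4 / (b : ℝ) ^ 4 < 1 := by
    rw [div_lt_one (by positivity)]
    calc (4 : ℝ) < 3 ^ 4 := by norm_num
      _ ≤ (b : ℝ) ^ 4 := pow_le_pow_left₀ (by norm_num) hbR 4
  have hb40 : 0 < 4 / (b : ℝ) ^ 4 := by positivity
  set ρ : ℝ := 1 - c * (4 / (b : ℝ) ^ 4) with hρ
  have hρ0 : 0 < ρ := by rw [hρ]; nlinarith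
  have hρ1 : ρ < 1 := by rw [hρ]; nlinarith
  set lam : ℝ := -Real.log ρ with hlam
  have hl0 : 0 < lam := by rw [hlam]; have := Real.log_neg hρ0 hρ1; linarith
  set δ : ℝ := min 1 (lam / 4) with hδ
  have hδ0 : 0 < δ := lt_min one_pos (by positivity)
  have hδ1 : δ ≤ 1 := min_le_left _ _
  have hδl : δ ≤ lam / 4 := min_le_right _ _
  set K : ℝ := 4 / lam * (Real.exp lam * (b * Real.exp (b * Real.exp lam))) with hK
  have hK0 : 0 < K := by positivity
  refine ⟨δ, max (2 * Real.exp 2) (√K), hδ0, lt_max_of_lt_left (by positivity), fun L t Δ ν ht htL hΔ hlaw => ?_⟩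
  have htR : (1 : ℝ) ≤ t := by exact_mod_cast ht
  have ht0 : (0 : ℝ) < t := by linarith
  rcases Nat.lt_or_ge L 3 with hL | hL
  · refine (dist_le_two hlaw.nonneg hlaw.one t).trans ?_
    have h1 : δ * ((L : ℝ) / t) ≤ 2 := by
      have h2 : (L : ℝ) ≤ 2 := by exact_mod_cast (by omega : L ≤ 2)
      have h3 : (L : ℝ) / t ≤ 2 := by
        rw [div_le_iff₀ ht0]; nlinarith
      have h4 : 0 ≤ (L : ℝ) / t := by positivity
      nlinarith
    calc (2 : ℝ) = 2 * Real.exp 2 * Real.exp (-2) := by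
          rw [mul_assoc, ← Real.exp_add]; norm_num
      _ ≤ max (2 * Real.exp 2) (√K) * Real.exp (-(δ * (L / t))) := by
          apply mul_le_mul (le_max_left _ _) (Real.exp_le_exp.2 (by linarith)) (Real.exp_pos _).le
          exact le_trans (by positivity) (le_max_left _ _)
  have hLR : (3 : ℝ) ≤ L := by exact_mod_cast hL
  have hL0 : (0 : ℝ) < L := by linarith
  have hlogL : 1 ≤ Real.log L := by
    have h1 : Real.exp 1 ≤ 3 := by have := Real.exp_one_lt_d9; linarith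
    rw [Real.le_log_iff_exp_le hL0]
    linarith
  have htle : (t : ℝ) ≤ L := by nlinarith
  have htleN : t ≤ L := by exact_mod_cast htle
  set x : ℝ := (L : ℝ) / t with hx
  have hx1 : Real.log L ≤ δ * x := by
    rw [hx, mul_div_assoc', le_div_iff₀ ht0]
    linarith
  obtain ⟨r, hr⟩ : ∃ r, L / t = r := ⟨_, rfl⟩
  have hr1 : 1 ≤ r := by rw [← hr]; exact (Nat.le_div_iff_mul_le (by omega)).2 (by omega)
  have hrt : r * t ≤ L := by rw [← hr]; exact Nat.div_mul_le_self L t
  have hrx : (r : ℝ) ≤ x := by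
    rw [hx, le_div_iff₀ ht0]; exact_mod_cast hrt
  have hrx' : x ≤ r + 1 := by
    rw [hx, div_le_iff₀ ht0]
    have : L < (r + 1) * t := by
      rw [← hr, Nat.add_mul, one_mul]
      exact Nat.lt_div_mul_add (by omega)
    have h5 : (L : ℝ) < ((r + 1 : ℕ) : ℝ) * t := by exact_mod_cast this
    push_cast at h5
    exact h5.le
  have hx0 : 0 ≤ x := by positivity
  have hρr : ρ ^ r ≤ Real.exp lam * Real.exp (-(lam * x)) := by
    have h1 : ρ ^ r = Real.exp (-(lam * r)) := by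
      rw [hlam, neg_mul, neg_neg, mul_comm, Real.exp_nat_mul, Real.exp_log hρ0]
    rw [h1, ← Real.exp_add]
    apply Real.exp_le_exp.2
    nlinarith
  have hρr2 : (b : ℝ) * ρ ^ r * t ≤ b * Real.exp lam := by
    have h1 : Real.exp (-(lam * x)) ≤ 1 / L := by
      have e : 1 / (L : ℝ) = Real.exp (-Real.log L) := by
        rw [Real.exp_neg, Real.exp_log hL0, one_div]
      rw [e]
      apply Real.exp_le_exp.2
      nlinarith
    have h2 : ρ ^ r * t ≤ Real.exp lam := by
      calc ρ ^ r * t ≤ (Real.exp lam * (1 / L)) * L := by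
            apply mul_le_mul _ htle ht0.le (by positivity)
            exact hρr.trans (mul_le_mul_of_nonneg_left h1 (Real.exp_pos _).le)
        _ = Real.exp lam := by field_simp
    calc (b : ℝ) * ρ ^ r * t = b * (ρ ^ r * t) := by ring
      _ ≤ _ := mul_le_mul_of_nonneg_left h2 hb0.le
  have hpow : (1 + b * ρ ^ r) ^ t ≤ Real.exp (b * Real.exp lam) := by
    calc (1 + b * ρ ^ r) ^ t ≤ (Real.exp (b * ρ ^ r)) ^ t :=
          pow_le_pow_left₀ (by positivity) (by have := Real.add_one_le_exp (b * ρ ^ r); linarith) t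
      _ = Real.exp (b * ρ ^ r * t) := by rw [← Real.exp_nat_mul]; congr 1; ring
      _ ≤ _ := Real.exp_le_exp.2 hρr2
  have hxe : x ≤ 4 / lam * Real.exp (lam * x / 4) := by
    have h1 := Real.add_one_le_exp (lam * x / 4)
    have h2 : lam * x / 4 ≤ Real.exp (lam * x / 4) := by linarith
    calc x = 4 / lam * (lam * x / 4) := by field_simp
      _ ≤ _ := mul_le_mul_of_nonneg_left h2 (by positivity)
  have htv := tv (N := 2 ^ t) (b := b) (Δ := Δ) (L := L) (by omega)
    (Nat.Coprime.pow_right t (Nat.coprime_two_right.2 (Nat.odd_iff.2 hbo))) (by omega)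
    (Nat.Coprime.pow_right t (Nat.coprime_two_right.2 (Nat.odd_iff.2 hΔ))) hc.le hc1 hlaw
    (r := r) (J := t) hr1 (Nat.pow_le_pow_left (by omega) t) hrt
  have hd0 : 0 ≤ dist ν t := Finset.sum_nonneg fun z _ => abs_nonneg _
  have hsq : dist ν t ^ 2 ≤ (√K * Real.exp (-(δ * x))) ^ 2 := by
    refine htv.trans ?_
    calc (r : ℝ) * (ρ ^ r * (b * (1 + b * ρ ^ r) ^ t))
        ≤ (4 / lam * Real.exp (lam * x / 4)) * ((Real.exp lam * Real.exp (-(lam * x))) *
            (b * Real.exp (b * Real.exp lam))) := by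
          apply mul_le_mul (hrx.trans hxe) _ (by positivity) (by positivity)
          apply mul_le_mul hρr _ (by positivity) (by positivity)
          exact mul_le_mul_of_nonneg_left hpow hb0.le
      _ = K * Real.exp (-(3 * lam * x / 4)) := by
          rw [hK]
          have : Real.exp (-(3 * lam * x / 4)) = Real.exp (lam * x / 4) * Real.exp (-(lam * x)) := by
            rw [← Real.exp_add]; congr 1; ring
          rw [this]; ring
      _ ≤ K * Real.exp (-(2 * (δ * x))) := by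
          apply mul_le_mul_of_nonneg_left _ hK0.le
          apply Real.exp_le_exp.2
          nlinarith
      _ = (√K * Real.exp (-(δ * x))) ^ 2 := by
          rw [mul_pow, Real.sq_sqrt hK0.le, ← Real.exp_nat_mul]
          congr 2
          push_cast; ring
  have h6 := (sq_le_sq₀ hd0 (by positivity)).1 hsq
  exact h6.trans (mul_le_mul_of_nonneg_right (le_max_right _ _) (Real.exp_pos _).le)

/-- the probability of an event which depends on the class -/
lemma prob_class {b L : ℕ} (ν : Fin L → Fin b → ℝ) (t : ℕ) (P : ℕ → Prop) (Z : Finset (ZMod (2 ^ t)))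
    (hPZ : ∀ n : ℕ, P n ↔ (n : ZMod (2 ^ t)) ∈ Z) :
    prob ν P = ∑ z ∈ Z, law (wt ν) (fun d => ((num b d : ℕ) : ZMod (2 ^ t))) z := by
  classical
  unfold prob law
  rw [Finset.sum_comm, Finset.sum_filter]
  apply Finset.sum_congr rfl
  intro d _
  rw [Finset.sum_ite_eq]
  by_cases h : P (num b d)
  · rw [if_pos h, if_pos ((hPZ _).1 h)]
  · rw [if_neg h, if_neg (fun h' => h ((hPZ _).2 h'))]

theorem prob_class_le {b L : ℕ} (ν : Fin L → Fin b → ℝ) (t : ℕ) (P : ℕ → Prop) (Z : Finset (ZMod (2 ^ t)))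
    (hPZ : ∀ n : ℕ, P n ↔ (n : ZMod (2 ^ t)) ∈ Z) :
    |prob ν P - Z.card / ((2 ^ t : ℕ) : ℝ)| ≤ dist ν t := by
  rw [prob_class ν t P Z hPZ]
  have e : (Z.card : ℝ) / ((2 ^ t : ℕ) : ℝ) = ∑ _z ∈ Z, 1 / ((2 ^ t : ℕ) : ℝ) := by
    rw [Finset.sum_const, nsmul_eq_mul]; ring
  rw [e, ← Finset.sum_sub_distrib]
  refine (Finset.abs_sum_le_sum_abs _ _).trans ?_
  unfold dist
  exact Finset.sum_le_sum_of_subset_of_nonneg (subset_univ _) fun z _ _ => abs_nonneg _

/-- **the parities of the first `t` terms** -/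
theorem parities {b L : ℕ} (ν : Fin L → Fin b → ℝ) (t : ℕ) :
    ∑ w : Fin t → Bool, |prob ν (fun n => pv t (n : ℤ) = w) - 1 / 2 ^ t| = dist ν t := by
  classical
  -- the class of a vector
  set F : ZMod (2 ^ t) → (Fin t → Bool) := fun z => pv t (z.val : ℤ) with hF
  have hFn : ∀ n : ℕ, F (n : ZMod (2 ^ t)) = pv t (n : ℤ) := by
    intro n
    simp only [hF]
    apply Pool.Agent.X17.MZ.pv_congr
    have h1 : ((n : ZMod (2 ^ t)).val : ℕ) = n % 2 ^ t := ZMod.val_natCast _ _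
    rw [h1]
    have h2 := Nat.div_add_mod n (2 ^ t)
    refine ⟨(n / 2 ^ t : ℕ), ?_⟩
    have h3 : ((2 ^ t * (n / 2 ^ t) + n % 2 ^ t : ℕ) : ℤ) = n := by exact_mod_cast h2
    push_cast at h3 ⊢
    linarith
  have hinj : Function.Injective F := by
    intro z z' h
    have h1 := dvd_of_pv h
    have h2 : ((z'.val : ℤ) : ZMod (2 ^ t)) = ((z.val : ℤ) : ZMod (2 ^ t)) := by
      rw [← sub_eq_zero, ← Int.cast_sub]
      rw [ZMod.intCast_zmod_eq_zero_iff_dvd]
      exact_mod_cast h1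
    rw [Int.cast_natCast, Int.cast_natCast, ZMod.natCast_zmod_val, ZMod.natCast_zmod_val] at h2
    exact h2.symm
  have hbij : Function.Bijective F := by
    rw [Fintype.bijective_iff_injective_and_card]
    refine ⟨hinj, ?_⟩
    rw [ZMod.card, Fintype.card_fun, Fintype.card_bool, Fintype.card_fin]
  unfold dist
  rw [← Fintype.sum_bijective F hbij
    (fun z => |law (wt ν) (fun d => ((num b d : ℕ) : ZMod (2 ^ t))) z - 1 / ((2 ^ t : ℕ) : ℝ)|)
    (fun w => |prob ν (fun n => pv t (n : ℤ) = w) - 1 / 2 ^ t|)]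
  intro z
  have h1 : prob ν (fun n => pv t (n : ℤ) = F z) =
      ∑ z' ∈ ({z} : Finset (ZMod (2 ^ t))), law (wt ν) (fun d => ((num b d : ℕ) : ZMod (2 ^ t))) z' := by
    apply prob_class
    intro n
    rw [← hFn, hinj.eq_iff, Finset.mem_singleton]
  rw [h1, Finset.sum_singleton]
  push_cast
  rfl

end Pool.Agent.X17.MQ
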