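import Pool.Agent.X17.MD.Dig

/-! # Equidistribution of integers with random digits in the classes modulo `N` -/

set_option autoImplicit false

namespace Pool.Agent.X17.MQ

open Finset ZMod
open Pool.Agent.X17.MD

variable {N b : ℕ}

lemma exists_far (hN : 0 < N) (hb : 2 ≤ b) {a : ℕ} (ha : 0 < a) (haN : a < N) {J : ℕ} (hJ : N ≤ b ^ J) :
    ∃ j < J, N ≤ b ^ 2 * (b ^ j * a % N) ∧ b ^ 2 * (b ^ j * a % N) < (b ^ 2 - 1) * N := by
  obtain ⟨c, rfl⟩ : ∃ c, b = c + 2 := ⟨b - 2, by omega⟩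
  have hJ0 : 0 < J := by
    rcases Nat.eq_zero_or_pos J with h | h
    · rw [h, pow_zero] at hJ; omega
    · exact h
  have hbJ : (c + 2) ^ J * (c + 2) = (c + 2) ^ (J + 1) := (pow_succ _ _).symm
  have h2J : (c + 2) ^ J < (c + 2) ^ (J + 1) := Nat.pow_lt_pow_right (by omega) (by omega)
  -- the general step
  have key : ∀ a' : ℕ, 0 < a' → 2 * a' ≤ N → ∃ j < J, N < (c + 2) ^ 2 * ((c + 2) ^ j * a') ∧
      (c + 2) ^ 2 * ((c + 2) ^ j * a') < ((c + 2) ^ 2 - 1) * N ∧ (c + 2) ^ j * a' < N := by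
    intro a' ha' h2
    have hex : ∃ j, N < (c + 2) ^ 2 * ((c + 2) ^ j * a') := by
      refine ⟨J - 1, ?_⟩
      have e : (c + 2) ^ 2 * ((c + 2) ^ (J - 1) * a') = (c + 2) ^ (J + 1) * a' := by
        rw [← mul_assoc, ← pow_add]
        congr 2
        omega
      rw [e]
      calc N ≤ (c + 2) ^ J := hJ
        _ < (c + 2) ^ (J + 1) := h2J
        _ ≤ (c + 2) ^ (J + 1) * a' := Nat.le_mul_of_pos_right _ ha'
    classical
    obtain ⟨j, hj⟩ : ∃ j, Nat.find hex = j := ⟨_, rfl⟩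
    have hj1 := Nat.find_spec hex
    rw [hj] at hj1
    have hjJ : j ≤ J - 1 := by
      rw [← hj]
      apply Nat.find_min'
      have e : (c + 2) ^ 2 * ((c + 2) ^ (J - 1) * a') = (c + 2) ^ (J + 1) * a' := by
        rw [← mul_assoc, ← pow_add]
        congr 2
        omega
      rw [e]
      calc N ≤ (c + 2) ^ J := hJ
        _ < (c + 2) ^ (J + 1) := h2J
        _ ≤ (c + 2) ^ (J + 1) * a' := Nat.le_mul_of_pos_right _ ha'
    have hsq : (c + 2) ^ 2 - 1 = c ^ 2 + 4 * c + 3 := by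
      have : (c + 2) ^ 2 = c ^ 2 + 4 * c + 3 + 1 := by ring
      omega
    refine ⟨j, by omega, hj1, ?_, ?_⟩
    · rw [hsq]
      rcases Nat.eq_zero_or_pos j with h0 | h0
      · rw [h0, pow_zero, one_mul]
        nlinarith
      · have h3 := Nat.find_min hex (m := j - 1) (by omega)
        push Not at h3
        have e : (c + 2) ^ 2 * ((c + 2) ^ j * a') = (c + 2) * ((c + 2) ^ 2 * ((c + 2) ^ (j - 1) * a')) := by
          have : (c + 2) ^ j = (c + 2) ^ (j - 1) * (c + 2) := by rw [← pow_succ]; congr 1; omega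
          rw [this]; ring
        rw [e]
        have h4 := Nat.mul_le_mul_left (c + 2) h3
        nlinarith
    · rcases Nat.eq_zero_or_pos j with h0 | h0
      · rw [h0, pow_zero, one_mul]; omega
      · have h3 := Nat.find_min hex (m := j - 1) (by omega)
        push Not at h3
        have e : (c + 2) * ((c + 2) ^ j * a') = (c + 2) ^ 2 * ((c + 2) ^ (j - 1) * a') := by
          have : (c + 2) ^ j = (c + 2) ^ (j - 1) * (c + 2) := by rw [← pow_succ]; congr 1; omega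
          rw [this]; ring
        have h4 : (c + 2) * ((c + 2) ^ j * a') ≤ N := by rw [e]; exact h3
        nlinarith
  rcases le_or_gt (2 * a) N with h | h
  · obtain ⟨j, hj, h1, h2, h3⟩ := key a ha h
    refine ⟨j, hj, ?_, ?_⟩
    · rw [Nat.mod_eq_of_lt h3]; exact h1.le
    · rw [Nat.mod_eq_of_lt h3]; exact h2
  · obtain ⟨j, hj, h1, h2, h3⟩ := key (N - a) (by omega) (by omega)
    have hmod : (c + 2) ^ j * a % N = N - (c + 2) ^ j * (N - a) := by
      have e1 : (c + 2) ^ j * a + (c + 2) ^ j * (N - a) = (c + 2) ^ j * N := by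
        rw [← Nat.mul_add]; congr 1; omega
      have h4 : 0 < (c + 2) ^ j := by positivity
      have e2 : (c + 2) ^ j * a = (N - (c + 2) ^ j * (N - a)) + N * ((c + 2) ^ j - 1) := by
        obtain ⟨p, hp⟩ : ∃ p, (c + 2) ^ j = p + 1 := ⟨(c + 2) ^ j - 1, by omega⟩
        rw [hp] at e1 h3 ⊢
        rw [Nat.add_sub_cancel]
        have e3 : (p + 1) * N = N * p + N := by ring
        omega
      have h5 : N - (c + 2) ^ j * (N - a) < N := by
        have : 0 < (c + 2) ^ j * (N - a) := Nat.mul_pos h4 (by omega)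
        omega
      rw [e2, Nat.add_mul_mod_self_left, Nat.mod_eq_of_lt h5]
    refine ⟨j, hj, ?_, ?_⟩
    · rw [hmod, Nat.mul_sub]
      have hsq : ((c + 2) ^ 2 - 1) * N + N = (c + 2) ^ 2 * N := by
        obtain ⟨p, hp⟩ : ∃ p, (c + 2) ^ 2 = p + 1 := ⟨(c + 2) ^ 2 - 1, by
          have : 1 ≤ (c + 2) ^ 2 := Nat.one_le_pow _ _ (by omega)
          omega⟩
        rw [hp, Nat.add_sub_cancel]; ring
      omega
    · rw [hmod, Nat.mul_sub]
      have hsq : ((c + 2) ^ 2 - 1) * N + N = (c + 2) ^ 2 * N := by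
        obtain ⟨p, hp⟩ : ∃ p, (c + 2) ^ 2 = p + 1 := ⟨(c + 2) ^ 2 - 1, by
          have : 1 ≤ (c + 2) ^ 2 := Nat.one_le_pow _ _ (by omega)
          omega⟩
        rw [hp, Nat.add_sub_cancel]; ring
      omega

lemma prod_le [NeZero N] (hb : 2 ≤ b) {ρ : ℝ} (h0 : 0 ≤ ρ) (h1 : ρ ≤ 1) {a : ZMod N} (ha : a ≠ 0) {J : ℕ}
    (hJ : N ≤ b ^ J) : ∏ j ∈ range J, W N b (ρ ^ 2) (b ^ j * a.val) ≤ ρ * ∏ j ∈ range J, W N b ρ (b ^ j * a.val) := by
  have hN : 0 < N := Nat.pos_of_ne_zero (NeZero.ne N)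
  have hav : 0 < a.val := by
    rcases Nat.eq_zero_or_pos a.val with h | h
    · exact absurd ((ZMod.val_eq_zero a).1 h) ha
    · exact h
  obtain ⟨j, hj, hfar⟩ := exists_far hN hb hav (ZMod.val_lt a) hJ
  have e : ∏ j ∈ range J, W N b (ρ ^ 2) (b ^ j * a.val) =
      (∏ j ∈ range J, W N b ρ (b ^ j * a.val)) * ∏ j ∈ range J, W N b ρ (b ^ j * a.val) := by
    rw [← Finset.prod_mul_distrib]
    apply Finset.prod_congr rfl
    intro j _
    rw [← W_pow, pow_two]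
  rw [e]
  apply mul_le_mul_of_nonneg_right _ (Finset.prod_nonneg fun j _ => W_nonneg h0 _)
  rw [← Finset.mul_prod_erase (range J) _ (mem_range.2 hj)]
  have h2 : W N b ρ (b ^ j * a.val) = ρ := by
    unfold W; rw [if_pos hfar]
  rw [h2]
  exact mul_le_of_le_one_right h0 (Finset.prod_le_one (fun j _ => W_nonneg h0 _) fun j _ => W_le_one h1 _)

/-- the sum over the nonzero frequencies -/
theorem freq0 [NeZero N] (hb : 2 ≤ b) (hbN : Nat.Coprime b N) {Δ : ℕ} (hΔ : Nat.Coprime Δ N) {ρ : ℝ}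
    (h0 : 0 ≤ ρ) (h1 : ρ ≤ 1) {r J L : ℕ} (hr : 1 ≤ r) (hJ : N ≤ b ^ J) (hL : r * J ≤ L) :
    ∑ a ∈ (univ : Finset (ZMod N)).erase 0, (∏ j ∈ range L, W N b ρ (b ^ j * (a * (Δ : ZMod N)).val)) ^ 2 ≤
      r * (ρ ^ r * (b * (1 + b * ρ ^ r) ^ J)) := by
  have hN : 0 < N := Nat.pos_of_ne_zero (NeZero.ne N)
  have hub : ∀ i : ℕ, IsUnit (((b ^ i : ℕ)) : ZMod N) := fun i =>
    (ZMod.isUnit_iff_coprime _ N).2 (Nat.Coprime.pow_left _ hbN)
  have huΔ : IsUnit ((Δ : ℕ) : ZMod N) := (ZMod.isUnit_iff_coprime _ N).2 hΔ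
  have hρ0 : 0 ≤ ρ ^ r := pow_nonneg h0 _
  have hρ1 : ρ ^ r ≤ 1 := pow_le_one₀ h0 h1
  have step : ∀ a ∈ (univ : Finset (ZMod N)).erase 0,
      (∏ j ∈ range L, W N b ρ (b ^ j * (a * (Δ : ZMod N)).val)) ^ 2 ≤
      ∑ i ∈ range r, ρ ^ r * (∏ j ∈ range J, W N b (ρ ^ r)
        (b ^ j * (a * (Δ : ZMod N) * ((b ^ (i * J) : ℕ) : ZMod N)).val)) := by
    intro a ha
    have ha0 : a ≠ 0 := Finset.ne_of_mem_erase ha
    have haΔ : a * (Δ : ZMod N) ≠ 0 := fun h => ha0 ((huΔ.mul_left_eq_zero).1 h)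
    obtain ⟨a', ha'⟩ : ∃ a', a * (Δ : ZMod N) = a' := ⟨_, rfl⟩
    rw [ha'] at haΔ ⊢
    have e1 : ∏ j ∈ range L, W N b ρ (b ^ j * a'.val) ≤ ∏ j ∈ range (r * J), W N b ρ (b ^ j * a'.val) := by
      have hsub : range (r * J) ⊆ range L := Finset.range_subset_range.2 hL
      rw [← Finset.prod_sdiff hsub]
      apply mul_le_of_le_one_left (Finset.prod_nonneg fun j _ => W_nonneg h0 _)
      exact Finset.prod_le_one (fun j _ => W_nonneg h0 _) (fun j _ => W_le_one h1 _)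
    have e2 : ∏ j ∈ range (r * J), W N b ρ (b ^ j * a'.val) =
        ∏ i ∈ range r, ∏ j ∈ range J, W N b ρ (b ^ j * (a' * ((b ^ (i * J) : ℕ) : ZMod N)).val) := by
      rw [prod_range_mul']
      apply Finset.prod_congr rfl
      intro i _
      apply Finset.prod_congr rfl
      intro j _
      apply W_congr
      have e3 : ((b ^ (i * J + j) * a'.val : ℕ) : ZMod N) =
          ((b ^ j * (a' * ((b ^ (i * J) : ℕ) : ZMod N)).val : ℕ) : ZMod N) := by
        push_cast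
        rw [ZMod.natCast_zmod_val, ZMod.natCast_zmod_val]
        ring
      have e4 := congrArg ZMod.val e3
      rwa [ZMod.val_natCast, ZMod.val_natCast] at e4
    calc (∏ j ∈ range L, W N b ρ (b ^ j * a'.val)) ^ 2
        ≤ (∏ j ∈ range (r * J), W N b ρ (b ^ j * a'.val)) ^ 2 :=
          pow_le_pow_left₀ (Finset.prod_nonneg fun j _ => W_nonneg h0 _) e1 2
      _ = ∏ i ∈ range r, (∏ j ∈ range J, W N b ρ (b ^ j * (a' * ((b ^ (i * J) : ℕ) : ZMod N)).val)) ^ 2 := by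
          rw [e2, Finset.prod_pow]
      _ ≤ ∑ i ∈ range r, ((∏ j ∈ range J, W N b ρ (b ^ j * (a' * ((b ^ (i * J) : ℕ) : ZMod N)).val)) ^ 2) ^ r :=
          prod_le_sum_pow hr _ (fun i => sq_nonneg _)
      _ ≤ _ := by
          apply Finset.sum_le_sum
          intro i _
          have e5 : ((∏ j ∈ range J, W N b ρ (b ^ j * (a' * ((b ^ (i * J) : ℕ) : ZMod N)).val)) ^ 2) ^ r =
              ∏ j ∈ range J, W N b ((ρ ^ r) ^ 2) (b ^ j * (a' * ((b ^ (i * J) : ℕ) : ZMod N)).val) := by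
            rw [← pow_mul, ← Finset.prod_pow]
            apply Finset.prod_congr rfl
            intro j _
            rw [W_pow, ← pow_mul, mul_comm 2 r]
          rw [e5]
          apply prod_le hb hρ0 hρ1 _ hJ
          intro h
          exact haΔ (((hub (i * J)).mul_left_eq_zero).1 h)
  refine (Finset.sum_le_sum step).trans ?_
  rw [Finset.sum_comm]
  calc ∑ i ∈ range r, ∑ a ∈ (univ : Finset (ZMod N)).erase 0, ρ ^ r * (∏ j ∈ range J, W N b (ρ ^ r)
        (b ^ j * (a * (Δ : ZMod N) * ((b ^ (i * J) : ℕ) : ZMod N)).val))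
      ≤ ∑ _i ∈ range r, (ρ ^ r * (b * (1 + b * ρ ^ r) ^ J)) := by
        apply Finset.sum_le_sum
        intro i _
        rw [← Finset.mul_sum]
        apply mul_le_mul_of_nonneg_left _ hρ0
        refine (Finset.sum_le_sum_of_subset_of_nonneg (Finset.erase_subset _ _)
          fun a _ _ => Finset.prod_nonneg fun j _ => W_nonneg hρ0 _).trans ?_
        have e6 : ∀ a : ZMod N, a * (Δ : ZMod N) * ((b ^ (i * J) : ℕ) : ZMod N) =
            a * ((Δ * b ^ (i * J) : ℕ) : ZMod N) := by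
          intro a; push_cast; ring
        simp_rw [e6]
        rw [sum_unit (fun m => ∏ j ∈ range J, W N b (ρ ^ r) (b ^ j * m)) (Δ * b ^ (i * J))
          (Nat.Coprime.mul_left hΔ (Nat.Coprime.pow_left _ hbN)),
          sum_val (fun m => ∏ j ∈ range J, W N b (ρ ^ r) (b ^ j * m))]
        exact cnt_all hN hb hρ0 hρ1 hJ
    _ = r * (ρ ^ r * (b * (1 + b * ρ ^ r) ^ J)) := by rw [Finset.sum_const, card_range, nsmul_eq_mul]

/-- **equidistribution in total variation** -/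
theorem tv [NeZero N] {Δ L : ℕ} (hb : 2 ≤ b) (hbN : Nat.Coprime b N) (hΔ0 : 0 < Δ) (hΔ : Nat.Coprime Δ N)
    {c : ℝ} (hc : 0 ≤ c) (hc1 : c ≤ 1) {ν : Fin L → Fin b → ℝ} (h : Law b Δ c ν) {r J : ℕ} (hr : 1 ≤ r)
    (hJ : N ≤ b ^ J) (hL : r * J ≤ L) :
    (∑ z : ZMod N, |law (wt ν) (fun d => ((num b d : ℕ) : ZMod N)) z - 1 / N|) ^ 2 ≤
      r * ((1 - c * (4 / (b : ℝ) ^ 4)) ^ r * (b * (1 + b * (1 - c * (4 / (b : ℝ) ^ 4)) ^ r) ^ J)) := by
  have hN : (0 : ℝ) < N := by exact_mod_cast Nat.pos_of_ne_zero (NeZero.ne N)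
  have hb4 : 4 / (b : ℝ) ^ 4 ≤ 1 := by
    have h2 : (2 : ℝ) ≤ b := by exact_mod_cast hb
    rw [div_le_one (by positivity)]
    calc (4 : ℝ) ≤ 2 ^ 4 := by norm_num
      _ ≤ (b : ℝ) ^ 4 := pow_le_pow_left₀ (by norm_num) h2 4
  have hb40 : 0 ≤ 4 / (b : ℝ) ^ 4 := by positivity
  have hρ0 : 0 ≤ 1 - c * (4 / (b : ℝ) ^ 4) := by nlinarith
  have hρ1 : 1 - c * (4 / (b : ℝ) ^ 4) ≤ 1 := by nlinarith
  obtain ⟨P, hP⟩ : ∃ P : ZMod N → ℝ, P = law (wt ν) (fun d => ((num b d : ℕ) : ZMod N)) := ⟨_, rfl⟩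
  rw [← hP]
  have hsum : ∑ z, P z = 1 := by
    rw [hP]
    unfold law
    rw [Finset.sum_comm]
    simp only [Finset.sum_ite_eq, Finset.mem_univ, if_true]
    exact total h.one
  have hpars := parseval (wt ν) (fun d => ((num b d : ℕ) : ZMod N))
  rw [← hP] at hpars
  have hzero : ‖∑ d : Fin L → Fin b, (wt ν d : ℂ) * stdAddChar ((0 : ZMod N) * ((num b d : ℕ) : ZMod N))‖ ^ 2 = 1 := by
    have : ∑ d : Fin L → Fin b, (wt ν d : ℂ) * stdAddChar ((0 : ZMod N) * ((num b d : ℕ) : ZMod N)) = 1 := by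
      have h2 : ∀ d : Fin L → Fin b, (wt ν d : ℂ) * stdAddChar ((0 : ZMod N) * ((num b d : ℕ) : ZMod N)) =
          ((wt ν d : ℝ) : ℂ) := by
        intro d
        rw [zero_mul, AddChar.map_zero_eq_one, mul_one]
      rw [Finset.sum_congr rfl fun d _ => h2 d, ← Complex.ofReal_sum, total h.one]
      norm_num
    rw [this]; norm_num
  rw [← Finset.add_sum_erase univ (fun a : ZMod N => ‖∑ d : Fin L → Fin b, (wt ν d : ℂ) *
    stdAddChar (a * ((num b d : ℕ) : ZMod N))‖ ^ 2) (mem_univ (0 : ZMod N))] at hpars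
  beta_reduce at hpars
  rw [hzero] at hpars
  have hvar : (N : ℝ) * ∑ z, (P z - 1 / N) ^ 2 = (N : ℝ) * ∑ z, P z ^ 2 - 1 := by
    have e1 : ∀ z, (P z - 1 / N) ^ 2 = P z ^ 2 - 2 / N * P z + 1 / (N : ℝ) ^ 2 := by
      intro z; field_simp; ring
    rw [Finset.sum_congr rfl fun z _ => e1 z, Finset.sum_add_distrib, Finset.sum_sub_distrib, ← Finset.mul_sum,
      hsum, Finset.sum_const, card_univ, ZMod.card, nsmul_eq_mul]
    field_simp
    ring
  have hcs : (∑ z : ZMod N, |P z - 1 / N|) ^ 2 ≤ N * ∑ z, (P z - 1 / N) ^ 2 := by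
    have h3 := sq_sum_le_card_mul_sum_sq (s := (univ : Finset (ZMod N))) (f := fun z => |P z - 1 / N|)
    rw [card_univ, ZMod.card] at h3
    simpa only [sq_abs] using h3
  refine hcs.trans ?_
  rw [hvar, hpars, add_sub_cancel_left]
  refine le_trans (Finset.sum_le_sum fun a _ => ?_) (freq0 hb hbN hΔ hρ0 hρ1 hr hJ hL)
  exact pow_le_pow_left₀ (norm_nonneg _) (char_bd hb hΔ0 hc h a) 2

end Pool.Agent.X17.MQ
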